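import Pool.Agent.helper58.DC.Spec1

/-! # Project dq: PR0, the terms of a radical chain of a power are products -/

set_option autoImplicit false

namespace Pool.Agent.helper34.DC

open Pool.Agent.helper58.DC

/-- A self-normalising subgroup of a finite `p`-group is everything. -/
theorem PR0_norm {H : Type} [Group H] [Finite H] (p : ℕ) [Fact p.Prime] (X Y : Subgroup H)
    (hXY : X ≤ Y) (hY : IsPGroup p Y) (h : Y ⊓ Subgroup.normalizer (X : Set H) ≤ X) : X = Y := by
  have hn : Group.IsNilpotent Y := hY.isNilpotent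
  have hc : NormalizerCondition Y := Group.normalizerCondition_of_isNilpotent
  by_contra hne
  have h1 : X.subgroupOf Y < ⊤ := by
    rw [lt_top_iff_ne_top, Ne, Subgroup.subgroupOf_eq_top]
    intro h2
    exact hne (le_antisymm hXY h2)
  have h2 := hc _ h1
  obtain ⟨g, hg1, hg2⟩ := SetLike.exists_of_lt h2
  apply hg2
  rw [Subgroup.mem_subgroupOf]
  apply h
  rw [Subgroup.mem_normalizer_iff] at hg1
  refine Subgroup.mem_inf.2 ⟨g.2, Subgroup.mem_normalizer_iff.2 fun x => ?_⟩
  constructor
  · intro hx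
    exact (hg1 ⟨x, hXY hx⟩).1 hx
  · intro hx
    have h3 : x ∈ Y := by
      have h4 : (g : H)⁻¹ * ((g : H) * x * (g : H)⁻¹) * (g : H) ∈ Y :=
        Y.mul_mem (Y.mul_mem (Y.inv_mem g.2) (hXY hx)) g.2
      have h5 : (g : H)⁻¹ * ((g : H) * x * (g : H)⁻¹) * (g : H) = x := by group
      rwa [h5] at h4
    exact (hg1 ⟨x, h3⟩).2 hx

theorem PR0_mem {G : Type} [Group G] {C : Finset (Subgroup G)} {g : G} :
    g ∈ nrm C ↔ ∀ P ∈ C, g ∈ Subgroup.normalizer (P : Set G) := by
  unfold nrm
  simp only [Subgroup.mem_iInf]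

/-- PR0. Every term of a radical chain of `T → G` is a product. -/
theorem PR0 (hPI : PI_stmt) (hPO : PO_stmt) (hRB : RB_stmt) : PR0_stmt := by
  classical
  intro G T _ _ _ p _ hop C hC
  have hopT : IsOp p (⊤ : Subgroup (T → G)) ⊥ := by
    have h := (hPO G T p (fun _ => ⊤) (fun _ => ⊥)).2 fun _ => hop
    rwa [Subgroup.pi_top, Subgroup.pi_bot] at h
  obtain ⟨_, _, hC3⟩ := (hRB (T → G) p hopT C).1 hC
  intro P
  induction P using WellFoundedLT.induction with
  | ind X ih =>
    intro hX
    obtain ⟨hXp, hXop⟩ := hC3 X hX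
    set N := nrm (C.filter (· ≤ X)) with hN
    set Xt : T → Subgroup G := fun t => X.map (Pi.evalMonoidHom (fun _ => G) t) with hXt
    have hXN : X ≤ N := hXop.1.1
    have hNX : N ≤ Subgroup.normalizer (X : Set (T → G)) := hXop.1.2.2
    have hmem : ∀ x ∈ X, ∀ t, x t ∈ Xt t := fun x hx t => ⟨x, hx, rfl⟩
    have hXY : X ≤ Subgroup.pi Set.univ Xt := fun x hx t _ => hmem x hx t
    have hY : IsPGroup p (Subgroup.pi Set.univ Xt : Subgroup (T → G)) :=
      (hPI G T p Xt Xt).2.1.2 fun t => hXp.map _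
    -- elements which normalise `X` normalise the projections
    have hnt : ∀ g ∈ Subgroup.normalizer (X : Set (T → G)), ∀ t,
        g t ∈ Subgroup.normalizer (Xt t : Set G) := by
      intro g hg t
      rw [Subgroup.mem_normalizer_iff]
      rw [Subgroup.mem_normalizer_iff] at hg
      intro h
      constructor
      · rintro ⟨x, hx, rfl⟩
        exact ⟨g * x * g⁻¹, (hg x).1 hx, rfl⟩
      · rintro ⟨x, hx, hxt⟩
        have hx' : g⁻¹ * x * g ∈ X := by
          rw [hg]
          have h5 : g * (g⁻¹ * x * g) * g⁻¹ = x := by group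
          rwa [h5]
        refine ⟨g⁻¹ * x * g, hx', ?_⟩
        have hxt' : x t = g t * h * (g t)⁻¹ := hxt
        change (g t)⁻¹ * x t * g t = h
        rw [hxt']
        group
    have hYN : Subgroup.pi Set.univ Xt ⊓ Subgroup.normalizer (X : Set (T → G)) ≤ N := by
      rintro y ⟨hy1, hy2⟩
      rw [hN, PR0_mem]
      intro Q hQ
      rw [Finset.mem_filter] at hQ
      rcases eq_or_lt_of_le hQ.2 with h | h
      · rw [h]
        exact hy2
      · have hQe := ih Q h hQ.1
        have hXQ : X ≤ Subgroup.normalizer (Q : Set (T → G)) := fun x hx =>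
          PR0_mem.1 (hXN hx) Q (Finset.mem_filter.2 hQ)
        have e1 := (hPI G T p (fun t => Q.map (Pi.evalMonoidHom (fun _ => G) t))
          (fun t => Q.map (Pi.evalMonoidHom (fun _ => G) t))).1
        rw [← hQe] at e1
        rw [e1] at hXQ ⊢
        intro t _
        obtain ⟨x, hx, hxt⟩ := hy1 t (Set.mem_univ t)
        have h6 := hXQ hx t (Set.mem_univ t)
        have hxt' : x t = y t := hxt
        rwa [hxt'] at h6
    have hle : Subgroup.pi Set.univ Xt ⊓ Subgroup.normalizer (X : Set (T → G)) ≤ X := by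
      refine hXop.2 ⟨hYN, hY.to_le inf_le_left, ?_⟩
      intro g hg
      have hg1 : g ∈ Subgroup.normalizer (X : Set (T → G)) := hNX hg
      have hg2 : g ∈ Subgroup.normalizer ((Subgroup.pi Set.univ Xt : Subgroup (T → G)) :
          Set (T → G)) := by
        rw [(hPI G T p Xt Xt).1]
        exact fun t _ => hnt g hg1 t
      rw [Subgroup.mem_normalizer_iff] at hg2 ⊢
      intro y
      have h7 : y ∈ Subgroup.normalizer (X : Set (T → G)) ↔
          g * y * g⁻¹ ∈ Subgroup.normalizer (X : Set (T → G)) := by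
        constructor
        · intro hy
          exact Subgroup.mul_mem _ (Subgroup.mul_mem _ hg1 hy) (Subgroup.inv_mem _ hg1)
        · intro hy
          have h8 := Subgroup.mul_mem _ (Subgroup.mul_mem _ (Subgroup.inv_mem _ hg1) hy) hg1
          have h9 : g⁻¹ * (g * y * g⁻¹) * g = y := by group
          rwa [h9] at h8
      rw [Subgroup.mem_inf, Subgroup.mem_inf, hg2 y, h7]
    exact PR0_norm p X _ hXY hY hle

end Pool.Agent.helper34.DC
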