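import Pool.Agent.helper58.DC.Spec2

/-! # Project dq: TR and WF, fixed elements of path sets -/

set_option autoImplicit false

namespace Pool.Agent.helper34.DC

open Pool.Agent.helper58.DC

/-- Sums with a condition are sums over a subtype. -/
theorem TR_cond {Z : Type} (P : Z → Prop) [DecidablePred P] (f : Z → ℤ) :
    ∑ᶠ z : Z, (if P z then f z else 0) = ∑ᶠ z : {z : Z // P z}, f z.1 := by
  rw [finsum_subtype_eq_finsum_cond]
  refine finsum_congr fun z => ?_
  by_cases h : P z
  · rw [if_pos h, finsum_eq_if, if_pos h]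
  · rw [if_neg h, finsum_eq_if, if_neg h]

/-- `fix` as a sum over the fixed elements of defect `d`. -/
theorem TR_fix {A : Type} [Group A] (S : SSet A) (d : ℤ) :
    S.fix d ⊤ = ∑ᶠ y : {y : {z : S.Z // ∀ a, S.act a z = z} // S.dfc y.1 = d},
      (-1 : ℤ) ^ S.len y.1.1 := by
  classical
  unfold SSet.fix
  have h := TR_cond (fun z : S.Z => S.dfc z = d ∧ ∀ a ∈ (⊤ : Subgroup A), S.act a z = z)
    (fun z => (-1 : ℤ) ^ S.len z)
  refine Eq.trans ?_ (h.trans ?_)
  · refine finsum_congr fun z => ?_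
    rfl
  · refine (finsum_eq_of_bijective (fun y : {y : {z : S.Z // ∀ a, S.act a z = z} //
      S.dfc y.1 = d} => (⟨y.1.1, y.2, fun a _ => y.1.2 a⟩ :
        {z : S.Z // S.dfc z = d ∧ ∀ a ∈ (⊤ : Subgroup A), S.act a z = z})) ⟨?_, ?_⟩ ?_).symm
    · intro y y' hy
      exact Subtype.ext (Subtype.ext (congrArg (fun u => u.1) hy))
    · rintro ⟨z, hz1, hz2⟩
      exact ⟨⟨⟨z, fun a => hz2 a (Subgroup.mem_top a)⟩, hz1⟩, rfl⟩
    · intro y
      rfl

/-- The general statement: `π : T → I` has the orbits of `V` as fibres, and stabilisers of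
some points of all orbits map onto `A`. -/
theorem TR_gen (hFX : FX_stmt) (hTP : TP_stmt) {A L T : Type} [Group A] [Group L]
    [MulAction L T] [Fintype T] (S : SSet A) (c : Cocycle L T A) (V : Subgroup L) {I : Type}
    [Fintype I] (π : T → I) (horb : ∀ t t', π t = π t' ↔ ∃ v ∈ V, v • t = t')
    (hfix : ∀ i, ∃ t, π t = i ∧ ∀ a, ∃ v ∈ V, v • t = t ∧ c.κ v t = a) (D : ℤ)
    (hD : ∀ d > D, S.fix d ⊤ = 0) :
    (pathS S c).fix ((Fintype.card T : ℤ) * D) V = (S.fix D ⊤) ^ Fintype.card I := by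
  classical
  have hZ := S.fin
  have hsurj : Function.Surjective π := fun i => by
    obtain ⟨t, ht, _⟩ := hfix i
    exact ⟨t, ht⟩
  set m : I → ℕ := fun i => (Finset.univ.filter fun t => π t = i).card with hm
  have hm0 : ∀ i, 0 < m i := fun i => by
    obtain ⟨t, ht⟩ := hsurj i
    exact Finset.card_pos.2 ⟨t, Finset.mem_filter.2 ⟨Finset.mem_univ _, ht⟩⟩
  have hsum : ∀ f : I → ℤ, ∑ t, f (π t) = ∑ i, (m i : ℤ) * f i := by
    intro f
    rw [← Finset.sum_fiberwise Finset.univ π fun t => f (π t)]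
    refine Finset.sum_congr rfl fun i _ => ?_
    rw [Finset.sum_congr rfl (g := fun _ => f i)
      (fun t ht => by rw [(Finset.mem_filter.1 ht).2])]
    rw [Finset.sum_const, nsmul_eq_mul]
  have hcard : (∑ i, (m i : ℤ)) = Fintype.card T := by
    have h := hsum fun _ => 1
    simp only [mul_one, Finset.sum_const, Finset.card_univ, nsmul_eq_mul] at h
    exact h.symm
  have hTP' := hTP {z : S.Z // ∀ a, S.act a z = z} I (fun y => (-1 : ℤ) ^ S.len y.1)
    (fun y => S.dfc y.1) m D hm0 (fun d hd => by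
      have h := hD d hd
      rw [TR_fix] at h
      exact h)
  rw [← TR_fix] at hTP'
  rw [← hTP', hFX]
  symm
  refine finsum_eq_of_bijective (fun y => ⟨fun t => (y.1 (π t)).1, ?_, ?_⟩) ⟨?_, ?_⟩ ?_
  · intro l hl t
    have h1 : π (l • t) = π t := ((horb t (l • t)).2 ⟨l, hl, rfl⟩).symm
    show (y.1 (π (l • t))).1 = S.act (c.κ l t) (y.1 (π t)).1
    rw [h1, (y.1 (π t)).2]
  · rw [hsum fun i => S.dfc (y.1 i).1, y.2, hcard]
  · intro y y' hyy
    have h1 := congrArg (fun u => u.1) hyy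
    refine Subtype.ext (funext fun i => Subtype.ext ?_)
    obtain ⟨t, rfl⟩ := hsurj i
    exact congrFun h1 t
  · rintro ⟨z, hz1, hz2⟩
    choose b hb1 hb2 using hfix
    have hzb : ∀ i a, S.act a (z (b i)) = z (b i) := by
      intro i a
      obtain ⟨v, hv, hvb, hva⟩ := hb2 i a
      have h := hz1 v hv (b i)
      rw [hvb, hva] at h
      exact h.symm
    have hzt : ∀ t, z t = z (b (π t)) := by
      intro t
      obtain ⟨v, hv, hvt⟩ := (horb (b (π t)) t).1 (hb1 (π t))
      have h := hz1 v hv (b (π t))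
      rw [hvt, hzb] at h
      exact h
    refine ⟨⟨fun i => ⟨z (b i), hzb i⟩, ?_⟩, ?_⟩
    · rw [hcard, ← hz2, ← hsum fun i => S.dfc (z (b i))]
      exact Finset.sum_congr rfl fun t _ => by rw [← hzt]
    · refine Subtype.ext (funext fun t => ?_)
      exact (hzt t).symm
  · intro y
    rw [← finprod_eq_prod_of_fintype]
    symm
    refine finprod_eq_of_bijective (fun O : MulAction.orbitRel.Quotient V T => π O.out) ⟨?_, ?_⟩ ?_
    · intro O O' h
      obtain ⟨v, hv, hvt⟩ := (horb _ _).1 h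
      have h1 : (Quotient.mk (MulAction.orbitRel V T) O'.out) =
          Quotient.mk (MulAction.orbitRel V T) O.out :=
        Quotient.sound ⟨⟨v, hv⟩, hvt⟩
      rw [Quotient.out_eq, Quotient.out_eq] at h1
      exact h1.symm
    · intro i
      obtain ⟨t, rfl⟩ := hsurj i
      refine ⟨Quotient.mk (MulAction.orbitRel V T) t, ?_⟩
      have h1 : (MulAction.orbitRel V T).r (Quotient.mk (MulAction.orbitRel V T) t).out t :=
        Quotient.exact (Quotient.out_eq _)
      obtain ⟨v, hv⟩ := h1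
      exact ((horb _ _).2 ⟨v.1, v.2, hv⟩).symm
    · intro O
      rfl

/-- TR. `r` copies of a transitive set `Q`. -/
theorem TR (hFX : FX_stmt) (hTP : TP_stmt) : TR_stmt := by
  intro A L Q _ _ _ _ _ S c q₀ r D h1 hD
  have h := TR_gen hFX hTP S (cocR c r) ⊤ (fun x : QR Q r => (x.2 : Fin r)) (by
    intro t t'
    constructor
    · intro htt
      obtain ⟨l, hl⟩ := MulAction.exists_smul_eq L t.1 t'.1
      exact ⟨l, Subgroup.mem_top l, Prod.ext hl htt⟩
    · rintro ⟨v, _, rfl⟩
      rfl) (by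
    intro i
    refine ⟨(q₀, i), rfl, fun a => ?_⟩
    obtain ⟨l, hl1, hl2⟩ := h1 a
    exact ⟨l, Subgroup.mem_top l, Prod.ext hl1 rfl, hl2⟩) D hD
  rw [Fintype.card_fin] at h
  rw [← h]
  congr 2
  have h2 : Fintype.card (QR Q r) = Fintype.card Q * r := by
    have h3 : Fintype.card (QR Q r) = Fintype.card (Q × Fin r) := rfl
    rw [h3, Fintype.card_prod, Fintype.card_fin]
  rw [h2, Nat.cast_mul]

/-- WF. Fixed elements for subgroups of the wreath product which contain the base group. -/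
theorem WF (hFX : FX_stmt) (hTP : TP_stmt) : WF_stmt := by
  classical
  intro A _ S n D V hD
  have hfin : Finite (MulAction.orbitRel.Quotient V (Fin n)) := inferInstance
  have := Fintype.ofFinite (MulAction.orbitRel.Quotient V (Fin n))
  have h := TR_gen hFX hTP S (wrC A n) (wrU A V)
    (fun i : Fin n => (Quotient.mk (MulAction.orbitRel V (Fin n)) i :
      MulAction.orbitRel.Quotient V (Fin n))) (by
    intro t t'
    constructor
    · intro htt
      obtain ⟨v, hv⟩ : (MulAction.orbitRel V (Fin n)).r t' t := Quotient.exact htt.symm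
      exact ⟨⟨v.1, fun _ => 1⟩, v.2, hv⟩
    · rintro ⟨v, hv, rfl⟩
      exact (Quotient.sound ⟨⟨v.σ, hv⟩, rfl⟩ : Quotient.mk (MulAction.orbitRel V (Fin n)) (v • t) =
        Quotient.mk (MulAction.orbitRel V (Fin n)) t).symm) (by
    intro i
    refine ⟨i.out, Quotient.out_eq i, fun a => ?_⟩
    exact ⟨⟨1, fun _ => a⟩, V.one_mem, rfl, rfl⟩) D hD
  rw [Fintype.card_fin] at h
  rw [h, Nat.card_eq_fintype_card]

end Pool.Agent.helper34.DC
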